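import Mathlib
import Pool.Agent.Run7.h486.CF.Main2

/-!
# Conformally flat three-dimensional spaces with Ricci curvature bounded below are smoothable

Let `G` be a group of isometries of `ℝ³` with compact quotient (for instance the group of a closed flat
three-manifold, such as `ℤ³`), and let `w ≥ 0` be a continuous `G`-invariant function. The singular
metric `g = w⁻² |dx|²` may have poles (zeros of `w`), for instance conical points `w ~ |x - x₀|^β`, `0 < β < 1`, where
the tangent cone is not Euclidean. If `Ric(g) ≥ -k g` in the sense of distributions and the length distance `d_w`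
induces the topology of `ℝ³`, then `(ℝ³/G, d_w)` is a uniform limit of smooth conformally flat metrics on `ℝ³/G`
with `Ric ≥ -(1 + δ) k`, `δ → 0`.

Idea: the lower order part of the Ricci tensor of `e^{2u} |dx|²` is a concave quadratic form of `∇u`, so mollification
preserves the lower bound up to Jensen's inequality for the exponential; near the poles one composes with a concave
function `F` which becomes constant and satisfies `F' e^{2s} ≤ (1 + δ) e^{2F}`. The convergence of the distances
is proved by constructing geodesics of the limit distance.
-/

set_option autoImplicit false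
open scoped Topology ENNReal
open Filter Run7.h486.CF

theorem Pool.Agent.Results.MP_63b676_gt.ConfFlat.result
    -- a group of isometries of `ℝ³` with compact quotient
    (G : Set (E3 → E3)) (hG : IsCocompactGroup G)
    -- the conformal factor and the weak gradient of `-log w`
    (w : E3 → ℝ) (p : E3 → E3) (hw : IsConfFactor w p) (hinv : ∀ σ ∈ G, ∀ x, w (σ x) = w x)
    -- the length distance of `w⁻² |dx|²` induces the topology of `ℝ³`
    (htop : ∀ x, Tendsto (fun y => confDist w x y) (𝓝 x) (𝓝 0))
    -- the Ricci curvature is bounded below by `-k` in the sense of distributions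
    (k : ℝ) (hk : 0 ≤ k) (hRic : DistRicGe k w p) (δ : ℝ) (hδ : 0 < δ) :
    ∃ v : E3 → ℝ, IsSmoothFactor G v ∧ RicGe ((1 + δ) * k) v ∧
      ∀ x y, orbDist G v x y ≤ orbDist G w x y + ENNReal.ofReal δ ∧
        orbDist G w x y ≤ orbDist G v x y + ENNReal.ofReal δ :=
  main2 hG hw hinv htop hk hRic hδ
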